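import Pool.Agent.MP_249f74_an.H32.Bas
import Pool.Agent.MP_249f74_an.H42.Par
import Pool.Agent.MP_249f74_an.H17.CmGen

/-!
Generic tangent edges.
-/

open Set Matrix

namespace Pool.Agent.MP_249f74_an.H27

open H17 (Der cl_le cl_mono)
open H17.Cm (grad rf dv dv_add dv_sub dv_smul dv_dot der_eval grad_dv dv_grad)
open H42 (ev Gen Cur FL mp)
open H88 (rk cl subset_cl)
open H96 (Kil mem_cl_of_kil ext_indep indep_bot)
open H32
open MvPolynomial (aeval pderiv)

variable {k C Ω ι κ : Type} [Field k] [Algebra k ℝ] [Field C] [Algebra k C] [Field Ω] [Algebra C Ω]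

lemma dv_pt (D : Der C Ω) (l : ι ⊕ ι → Ω) (t : Ω) :
    dv D (pt l t) = dv D (pos l) + t • dv D (dir l) + D t • dir l := by
  ext i; simp [dv, pt]; ring

section Hess

variable [Fintype ι]

omit [Fintype ι] in
lemma pderiv_comm (i j : ι) (F : MvPolynomial ι C) :
    pderiv i (pderiv j F) = pderiv j (pderiv i F) := by
  classical
  have := MvPolynomial.derivation_ext (D₁ := ⁅(pderiv i : Derivation C (MvPolynomial ι C) _),
    (pderiv j : Derivation C (MvPolynomial ι C) _)⁆) (D₂ := 0) fun a => by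
      simp [Derivation.commutator_apply, Pi.single_apply, apply_ite]
  rw [← sub_eq_zero, ← Derivation.commutator_apply, this]; rfl

/-- The Hessian form. -/
noncomputable def hess (F : MvPolynomial ι C) (q v : ι → Ω) : ι → Ω :=
  fun i => grad (pderiv i F) q ⬝ᵥ v

lemma dv_grad_eq (D : Der C Ω) (F : MvPolynomial ι C) (q : ι → Ω) :
    dv D (grad F q) = hess F q (dv D q) := by
  classical exact funext fun i => der_eval D q _

lemma hess_symm (F : MvPolynomial ι C) (q v w : ι → Ω) : hess F q v ⬝ᵥ w = hess F q w ⬝ᵥ v := by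
  classical
  simp only [hess, grad, dotProduct, Finset.sum_mul]
  rw [Finset.sum_comm]
  refine Finset.sum_congr rfl fun i _ => Finset.sum_congr rfl fun j _ => ?_
  rw [pderiv_comm]; ring

lemma hess_smul (F : MvPolynomial ι C) (q v : ι → Ω) (a : Ω) :
    hess F q (a • v) = a • hess F q v := by ext i; simp [hess]

lemma dv_hess {D : Der C Ω} {q : ι → Ω} (h : dv D q = 0) (F : MvPolynomial ι C) (v : ι → Ω) :
    dv D (hess F q v) = hess F q (dv D v) := by
  classical
  ext i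
  rw [dv, hess, dv_dot, dv_grad h, zero_dotProduct, zero_add, hess]

lemma eval_derivative_two (F : MvPolynomial ι C) (l : ι ⊕ ι → Ω) (t : Ω) :
    (sec F l).derivative.derivative.eval t = hess F (pt l t) (dir l) ⬝ᵥ dir l := by
  classical
  rw [sec, H17.Cm.derivative_line]
  simp [Polynomial.eval_finsetSum, H17.Cm.eval_derivative_line, dotProduct, hess, pt]

/-- A vector orthogonal to the orthogonal complement of a vector is a multiple of it. -/
lemma par {N g : ι → Ω} (hN : N ≠ 0) (h : ∀ w, N ⬝ᵥ w = 0 → g ⬝ᵥ w = 0) : ∃ c : Ω, g = c • N := by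
  classical
  obtain ⟨e, he⟩ := Function.ne_iff.1 hN
  have he' : N e ≠ 0 := he
  refine ⟨g e / N e, funext fun i => ?_⟩
  have := h (N e • Pi.single i 1 - N i • Pi.single e 1) (by simp [mul_comm])
  simp only [dotProduct_sub, dotProduct_smul, dotProduct_single, mul_one, smul_eq_mul] at this
  simp only [Pi.smul_apply, smul_eq_mul]
  field_simp
  linear_combination this

end Hess

variable [CharZero Ω]

lemma gen_free {l : κ → Ω} (h : Gen C l) (v : κ → Ω) : ∃ D : Der C Ω, dv D l = v :=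
  (ext_indep ⊥ (indep_bot (gen_iff.1 h)) 0 v).imp fun _ h => funext h.2

/-- The derivations move a generic point of a hypersurface in every tangent direction. -/
lemma free_of_rk [Fintype κ] {l c v : κ → Ω}
    (h : (Fintype.card κ : ℕ∞) ≤ rk C (range l) + 1) (c0 : c ≠ 0)
    (hc : ∀ D : Der C Ω, c ⬝ᵥ dv D l = 0) (hv : c ⬝ᵥ v = 0) : ∃ D : Der C Ω, dv D l = v := by
  classical
  obtain ⟨j, hj⟩ := Function.ne_iff.1 c0
  have hj' : c j ≠ 0 := hj
  have key : ∀ a b : κ → Ω, c ⬝ᵥ a = 0 → c ⬝ᵥ b = 0 → (∀ i, i ≠ j → a i = b i) → a = b :=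
    fun a b ha hb e => funext fun i => by
      by_cases hi : i = j
      · have : c ⬝ᵥ (a - b) = 0 := by rw [dotProduct_sub, ha, hb, sub_zero]
        rw [dotProduct, Finset.sum_eq_single j (fun i _ hi => by simp [e i hi]) (by simp)] at this
        exact hi ▸ sub_eq_zero.1 ((mul_eq_zero.1 this).resolve_left hj')
      · exact e i hi
  let y : {i // i ≠ j} → Ω := fun i => l i
  have h1 : rk C (range l) ≤ rk C (range y) := H88.rk_le (range_subset_iff.2 fun i =>
    mem_cl_of_kil fun D hD => congrFun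
      (key _ 0 (hc D) (by simp) fun i hi => hD _ ⟨⟨i, hi⟩, rfl⟩) i)
  have h2 : Gen C y := gen_iff_rk.2 (by
    have h3 := h.trans (add_le_add_left h1 1)
    have : Fintype.card κ = Fintype.card {i // i ≠ j} + 1 := by
      have := Fintype.card_pos_iff.2 ⟨j⟩
      simp only [ne_eq, Fintype.card_subtype_compl, Fintype.card_unique]; omega
    rw [this, Nat.cast_add, Nat.cast_one] at h3
    exact (ENat.add_le_add_iff_right ENat.one_ne_top).1 h3)
  obtain ⟨D, hD⟩ := gen_free h2 fun i => v i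
  exact ⟨D, key _ _ (hc D) hv fun i hi => congrFun hD ⟨i, hi⟩⟩

omit [CharZero Ω] in
lemma const_of_der [IsAlgClosed C] [CharZero Ω] {a : Ω} (h : ∀ D : Der C Ω, D a = 0) :
    ∃ c, a = algebraMap C Ω c := by
  have h1 : a ∈ cl C (∅ : Set Ω) := mem_cl_of_kil fun D _ => h D
  have h2 : IsAlgebraic C a := by
    rw [H88.mem_cl, Algebra.adjoin_empty] at h1
    exact (Subalgebra.isAlgebraic_bot_iff (algebraMap C Ω).injective).1 h1
  obtain ⟨c, hc⟩ := minpoly.mem_range_of_degree_eq_one C a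
    (IsAlgClosed.degree_eq_one_of_irreducible C (minpoly.irreducible h2.isIntegral))
  exact ⟨c, hc.symm⟩

variable [Fintype ι] {m m' : Mir k C ι} {l l' : ι ⊕ ι → Ω} {q u : ι → Ω} {s t t' : Ω}

lemma on_free (h : m.On q) {w : ι → Ω} (hw : grad m.f q ⬝ᵥ w = 0) : ∃ D : Der C Ω, dv D q = w := by
  classical exact free_of_rk h.rk.ge h.grad_ne (fun _ => grad_dv h.zero) hw

/-- A root that moves in all directions modulo one vector is generic. -/
lemma on_of_free (h0 : aeval q m.f = 0)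
    (h : ∀ w, ∃ (D : Der C Ω) (c : Ω), dv D q = w + c • u) : m.On q ∧ grad m.f q ⬝ᵥ u ≠ 0 := by
  classical
  have k1 : ∀ P : MvPolynomial ι C, aeval q P = 0 → grad P q ⬝ᵥ u = 0 → grad P q = 0 :=
    fun P h1 h2 => funext fun i => by
      obtain ⟨D, c, e⟩ := h (Pi.single i 1)
      simpa [e, h2] using grad_dv (θ := D) h1
  obtain ⟨P, h1, j, h2⟩ : ∃ P : MvPolynomial ι C, aeval q P = 0 ∧ ∃ j, grad P q j ≠ 0 := by
    by_contra hn
    push Not at hn
    exact m.prime.ne_zero (H17.Cm.eq_zero_of_stable (y := q) _ (fun P hP => ⟨hP, hn P hP⟩) _ h0)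
  have h3 : H88.Gen C q := ⟨j, H17.Cm.indep_of_dual fun i => by
    obtain ⟨D, c, e⟩ := h (Pi.single i.1 1 - (grad P q i / grad P q j) • Pi.single j 1)
    have e1 := grad_dv (θ := D) h1
    have e2 : c = 0 := by
      refine (mul_eq_zero.1 ?_).resolve_right fun e => h2 (congrFun (k1 P h1 e) j)
      simpa [e, h2] using e1
    refine ⟨D, funext fun a => (congrFun e a).trans ?_⟩
    simp [Pi.single_apply, a.2, Subtype.ext_iff, e2]⟩
  have h4 : m.On q := fun Q => ⟨H88.dvd_of_gen h3 m.prime.irreducible h0, by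
    rintro ⟨G, rfl⟩; rw [map_mul, h0, zero_mul]⟩
  exact ⟨h4, fun e => h4.grad_ne (k1 _ h0 e)⟩

/-- Mirrors are not flat. -/
lemma not_flat [IsAlgClosed C] (h : m.On q) :
    ∃ v w, grad m.f q ⬝ᵥ v = 0 ∧ grad m.f q ⬝ᵥ w = 0 ∧ hess m.f q v ⬝ᵥ w ≠ 0 := by
  classical
  by_contra hn
  push Not at hn
  obtain ⟨e, he⟩ := Function.ne_iff.1 h.grad_ne
  have he' : grad m.f q e ≠ 0 := he
  choose c hc using fun i => const_of_der (a := grad m.f q i / grad m.f q e) fun D => by
    obtain ⟨a, ha⟩ := par h.grad_ne (hn _ · (grad_dv (θ := D) h.zero))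
    rw [← dv_grad_eq] at ha
    rw [Derivation.leibniz_div, show D (grad m.f q i) = _ from congrFun ha i,
      show D (grad m.f q e) = _ from congrFun ha e]
    simp only [Pi.smul_apply, smul_eq_mul]
    ring
  obtain ⟨b, hb⟩ := const_of_der (a := ∑ i, algebraMap C Ω (c i) * q i) fun D => by
    have := grad_dv (θ := D) h.zero
    simp only [map_sum, Derivation.leibniz, D.map_algebraMap, mul_zero, add_zero, smul_eq_mul]
    simp only [← hc, div_mul_eq_mul_div, ← Finset.sum_div]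
    exact div_eq_zero_iff.2 (Or.inl this)
  have h1 := (h (∑ i, MvPolynomial.C (c i) * MvPolynomial.X i - MvPolynomial.C b)).1
    (by simp [hb])
  have h2 := MvPolynomial.totalDegree_le_of_dvd_of_isDomain h1 fun e0 => by
    have h3 := congrArg (pderiv e) e0
    have h4 := hc e
    rw [div_self he', ← map_one (algebraMap C Ω)] at h4
    simp [Pi.single_apply, ← (algebraMap C Ω).injective h4] at h3
  have h3 : (∑ i, MvPolynomial.C (c i) * MvPolynomial.X i - MvPolynomial.C b :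
      MvPolynomial ι C).totalDegree ≤ 1 :=
    (MvPolynomial.totalDegree_sub _ _).trans (max_le
      (MvPolynomial.totalDegree_finsetSum_le fun i _ =>
        (MvPolynomial.totalDegree_mul _ _).trans (by simp)) (by simp))
  have := m.deg
  omega

/-- A generic tangent edge with its point of contact. -/
structure Tg (m : Mir k C ι) (l : ι ⊕ ι → Ω) (t : Ω) : Prop where
  cur : Cur C l
  on : m.On (pt l t)
  tan : grad m.f (pt l t) ⬝ᵥ dir l = 0

omit [CharZero Ω] in
lemma tl_iff : Tl m l ↔ ∃ t, Tg m l t :=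
  ⟨fun ⟨h, t, h1, h2⟩ => ⟨t, h, h1, h2⟩, fun ⟨t, h, h1, h2⟩ => ⟨h, t, h1, h2⟩⟩

namespace Tg

variable (h : Tg m l t)
include h

omit [CharZero Ω] in
lemma map (σ : Ω ≃ₐ[C] Ω) : Tg m (mp σ l) (σ t) :=
  ⟨h.cur.imp fun π e => ⟨e.1, fun F => by rw [ev_mp, map_eq_zero, e.2]⟩, pt_mp σ l t ▸ h.on.map σ,
    by rw [pt_mp, dir_mp, grad_map, dot_map, h.tan, map_zero]⟩

omit [CharZero Ω] in
lemma dot (D : Der C Ω) : grad m.f (pt l t) ⬝ᵥ (dv D (pos l) + t • dv D (dir l)) = 0 := by
  classical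
  have := grad_dv (θ := D) h.on.zero
  rwa [dv_pt, dotProduct_add, dotProduct_smul, h.tan, smul_zero, add_zero] at this

/-- The only condition on the motion of a tangent edge. -/
lemma free {a b : ι → Ω} (e : grad m.f (pt l t) ⬝ᵥ (a + t • b) = 0) :
    ∃ D : Der C Ω, dv D (pos l) = a ∧ dv D (dir l) = b := by
  obtain ⟨D, hD⟩ := free_of_rk (l := l) (c := Sum.elim (grad m.f (pt l t)) (t • grad m.f (pt l t)))
    (v := Sum.elim a b) (cur_iff_rk.1 h.cur).ge
    (fun e => h.on.grad_ne (funext fun i => congrFun e (.inl i)))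
    (fun D => by simpa [dotProduct, Finset.sum_add_distrib, mul_add, mul_left_comm, mul_assoc,
      dv, pos, dir] using h.dot D)
    (by simpa [dotProduct, Finset.sum_add_distrib, mul_add, mul_left_comm, mul_assoc] using e)
  exact ⟨D, funext fun i => congrFun hD (.inl i), funext fun i => congrFun hD (.inr i)⟩

/-- Rotations about the point of contact. -/
lemma rot (b : ι → Ω) : ∃ D : Der C Ω, dv D (dir l) = b ∧ dv D (pt l t) = D t • dir l ∧
    D t * (hess m.f (pt l t) (dir l) ⬝ᵥ dir l) + grad m.f (pt l t) ⬝ᵥ b = 0 := by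
  classical
  obtain ⟨D, h1, h2⟩ := h.free (a := -(t • b)) (b := b) (by simp)
  have h3 : dv D (pt l t) = D t • dir l := by rw [dv_pt, h1, h2]; simp
  refine ⟨D, h2, h3, ?_⟩
  have := dv_dot D (grad m.f (pt l t)) (dir l)
  rw [h.tan, map_zero, dv_grad_eq, h3, h2, hess_smul, smul_dotProduct] at this
  exact this.symm

lemma gen_dir : Gen C (dir l) := by
  classical exact gen_iff.2 (H17.Cm.indep_of_dual fun j => (h.rot _).imp fun _ e => e.1)

/-- The direction is not asymptotic. -/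
lemma hess_ne : hess m.f (pt l t) (dir l) ⬝ᵥ dir l ≠ 0 := fun e => by
  obtain ⟨D, -, -, h1⟩ := h.rot (grad m.f (pt l t))
  exact h.on.nn (by simpa [e] using h1)

lemma deg {F : MvPolynomial ι C} (hF : F ≠ 0) : (sec F l).natDegree = F.totalDegree :=
  natDegree_sec hF h.gen_dir

lemma sec_ne (m' : Mir k C ι) : sec m'.f l ≠ 0 := H32.sec_ne m'.prime.ne_zero h.gen_dir

lemma mem : t ∈ Pts m l := mem_pts.2 ⟨h.sec_ne m, h.on.zero⟩

lemma own : (sec m.f l).rootMultiplicity t = 2 :=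
  le_antisymm (not_lt.1 fun e => h.hess_ne ((eval_derivative_two ..).symm.trans
    ((Polynomial.lt_rootMultiplicity_iff_isRoot_iterate_derivative (h.sec_ne m)).1 e 2 le_rfl)))
    ((Polynomial.one_lt_rootMultiplicity_iff_isRoot (h.sec_ne m)).2
      ⟨(eval_sec ..).trans h.on.zero, (eval_derivative_sec ..).trans h.tan⟩)

/-- The other points of the edge move freely modulo the direction. -/
lemma move (hs : s ≠ t) (w : ι → Ω) :
    ∃ (D : Der C Ω) (c : Ω), dv D (pt l s) = w + c • dir l := by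
  have h1 := h.on.nn
  have h2 := sub_ne_zero.2 hs
  obtain ⟨b, hb⟩ : ∃ b, b = (grad m.f (pt l t) ⬝ᵥ w /
    ((s - t) * (grad m.f (pt l t) ⬝ᵥ grad m.f (pt l t)))) • grad m.f (pt l t) := ⟨_, rfl⟩
  obtain ⟨D, h3, h4⟩ := h.free (a := w - s • b) (b := b) (by
    simp only [hb, dotProduct_add, dotProduct_sub, dotProduct_smul, smul_eq_mul]
    field_simp; ring)
  exact ⟨D, D s, by rw [dv_pt, h3, h4, sub_add_cancel]⟩

lemma oth (hs : s ≠ t) (h0 : aeval (pt l s) m'.f = 0) :
    m'.On (pt l s) ∧ grad m'.f (pt l s) ⬝ᵥ dir l ≠ 0 := on_of_free h0 (h.move hs)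

omit [CharZero Ω] in
lemma eq_of_zero (h0 : aeval (pt l t) m'.f = 0) : m = m' :=
  Mir.ext_of_associated (m.prime.associated_of_dvd m'.prime ((h.on _).1 h0))

omit [CharZero Ω] in
lemma ne (h0 : aeval (pt l s) m'.f = 0) (hn : m' ≠ m ∨ s ≠ t) : s ≠ t := fun e =>
  hn.elim (fun h1 => h1 (h.eq_of_zero (e ▸ h0)).symm) fun h1 => h1 e

lemma simple (hs : s ∈ Pts m' l) (hn : m' ≠ m ∨ s ≠ t) : (sec m'.f l).rootMultiplicity s = 1 := by
  obtain ⟨h1, h2⟩ := mem_pts.1 hs
  refine le_antisymm (not_lt.1 fun e => (h.oth (h.ne h2 hn) h2).2 ?_)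
    ((Polynomial.rootMultiplicity_pos h1).2 ((eval_sec ..).trans h2))
  exact (eval_derivative_sec ..).symm.trans
    ((Polynomial.one_lt_rootMultiplicity_iff_isRoot h1).1 e).2

/-- All points except the point of contact are vertices. -/
lemma step (hs : s ∈ Pts m' l) (hn : m' ≠ m ∨ s ≠ t) : ∃ l', St m' l s l' :=
  have h2 := (mem_pts.1 hs).2
  have h3 := h.oth (h.ne h2 hn) h2
  ⟨_, st_edge h2 h3.1.nn h3.2⟩

/-- The mirror and the point of contact are determined by the edge. -/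
lemma uniq (h' : Tg m' l t') : m = m' ∧ t = t' := by
  obtain rfl : t' = t := by_contra fun e => (h.oth e h'.on.zero).2 h'.tan
  exact ⟨h.eq_of_zero h'.on.zero, rfl⟩

omit [CharZero Ω] in
lemma dir_eq [DecidableEq ι] {e : ι} (he : grad m.f (pt l t) e ≠ 0) : dir l e =
    -(∑ i ∈ Finset.univ.erase e, grad m.f (pt l t) i * dir l i) / grad m.f (pt l t) e := by
  have := h.tan
  rw [dotProduct, ← Finset.add_sum_erase _ _ (Finset.mem_univ e)] at this
  rw [eq_div_iff he]
  linear_combination this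

omit [CharZero Ω] in
lemma ker [DecidableEq ι] {e : ι} (he : grad m.f (pt l t) e ≠ 0) (F : MvPolynomial (ι ⊕ ι) C) :
    ev (Sum.elim (pt l t) (Function.update (dir l) e t)) F = 0 ↔
      MvPolynomial.rename Sum.inl m.f ∣ F := by
  refine ker_of_rk ?_ (by rw [ev, MvPolynomial.aeval_rename]; exact h.on.zero)
    ((cur_iff_rk.1 h.cur).ge.trans (add_le_add_left (H88.rk_le ?_) 1)) F
  · let q := Equiv.ofInjective (Sum.inl : ι → ι ⊕ ι) Sum.inl_injective
    have := (MvPolynomial.prime_rename_iff _).2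
      ((MulEquiv.prime_iff (MvPolynomial.renameEquiv C q)).2 m.prime)
    rwa [MvPolynomial.renameEquiv_apply, MvPolynomial.rename_rename] at this
  set S := range (Sum.elim (pt l t) (Function.update (dir l) e t))
  have h1 : ∀ i, pt l t i ∈ cl C S := fun i => subset_cl _ ⟨.inl i, rfl⟩
  have h2 : t ∈ cl C S := subset_cl _ ⟨.inr e, by simp⟩
  have h3 : ∀ i, i ≠ e → dir l i ∈ cl C S := fun i hi => subset_cl _ ⟨.inr i, by simp [hi]⟩
  rw [← edge_pt l t]
  refine range_subset_iff.2 (edge_mem_cl h1 (fun i => ?_) h2)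
  by_cases hi : i = e
  · rw [hi, h.dir_eq he]
    exact div_mem (neg_mem (sum_mem fun i hi => mul_mem (aeval_mem_cl h1 _)
      (h3 i (Finset.mem_erase.1 hi).1))) (aeval_mem_cl h1 _)
  · exact h3 i hi

omit [CharZero Ω] in
/-- Generic tangent edges of a mirror are conjugate. -/
lemma conj [IsAlgClosed Ω] (h' : Tg m l' t') : ∃ σ : Ω ≃ₐ[C] Ω, mp σ l = l' ∧ σ t = t' := by
  classical
  obtain ⟨e, he⟩ := Function.ne_iff.1 h.on.grad_ne
  have he' : grad m.f (pt l' t') e ≠ 0 := fun e0 => he ((h.on _).2 ((h'.on _).1 e0))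
  obtain ⟨σ, hσ⟩ := H42.conj fun F => (h.ker he F).trans (h'.ker he' F).symm
  have e1 : σ ∘ pt l t = pt l' t' := funext fun i => congrFun hσ (.inl i)
  have e2 : σ t = t' := by simpa [mp] using congrFun hσ (.inr e)
  have e3 : ∀ i, i ≠ e → σ (dir l i) = dir l' i := fun i hi => by
    simpa [mp, hi] using congrFun hσ (.inr i)
  have e4 : pt (mp σ l) t' = pt l' t' := by rw [← e1, ← e2, pt_mp]
  refine ⟨σ, eq_of_pt e4 (funext fun i => ?_), e2⟩
  by_cases hi : i = e
  · have h1 : Tg m (mp σ l) t' := e2 ▸ h.map σ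
    rw [hi, h'.dir_eq he', h1.dir_eq (e4 ▸ he'), e4]
    congr 2
    exact Finset.sum_congr rfl fun i hi => congrArg _ (e3 i (Finset.mem_erase.1 hi).1)
  · exact e3 i hi

end Tg

/-- Construction of tangent edges from generic edges. -/
lemma tg_of_gen [IsAlgClosed C] (hl : Gen C l) (h0 : aeval (pt l t) m.f = 0) :
    Tg m (edge (pt l t) (dir l - (grad m.f (pt l t) ⬝ᵥ dir l /
      (grad m.f (pt l t) ⬝ᵥ grad m.f (pt l t))) • grad m.f (pt l t)) (grad m.f (pt l t) ⬝ᵥ dir l))
      (grad m.f (pt l t) ⬝ᵥ dir l) := by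
  classical
  have h1 := gen_on hl h0
  have h2 := h1.nn
  have h3 := gen_nu hl h0
  have hr := (gen_iff_rk.1 hl).trans (rk_edge_le l t)
  have hD : ∀ b, ∃ D : Der C Ω, dv D (pt l t) = 0 ∧ dv D (dir l) = b := fun b => by
    obtain ⟨D, hD⟩ := gen_free hl (Sum.elim (-(t • b)) b)
    have e1 : dv D (pos l) = -(t • b) := funext fun i => congrFun hD (.inl i)
    have e2 : dv D (dir l) = b := funext fun i => congrFun hD (.inr i)
    have e3 := grad_dv (θ := D) h0
    rw [dv_pt, e1, e2, neg_add_cancel, zero_add, dotProduct_smul, smul_eq_mul, mul_eq_zero,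
      or_iff_left h3] at e3
    exact ⟨D, by rw [dv_pt, e1, e2, e3]; simp, e2⟩
  generalize pt l t = q at *
  generalize dir l = v at *
  set N := grad m.f q with hN
  set u := v - (N ⬝ᵥ v / (N ⬝ᵥ N)) • N with hu
  have h4 : N ⬝ᵥ u = 0 := by simp [hu, h2]
  have hD' : ∀ b, N ⬝ᵥ b = 0 → ∃ D : Der C Ω, dv D q = 0 ∧ dv D u = b := fun b hb => by
    obtain ⟨D, e1, e2⟩ := hD b
    have e3 : dv D N = 0 := dv_grad e1 _
    refine ⟨D, e1, ?_⟩
    rw [hu, dv_sub, dv_smul, Derivation.leibniz_div, dv_dot, dv_dot, e2, e3, hb]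
    simp
  have h5 : hess m.f q u ⬝ᵥ u ≠ 0 := fun e => by
    obtain ⟨a, b, p1, p2, p3⟩ := not_flat h1
    obtain ⟨c, hc⟩ := par h1.grad_ne (g := hess m.f q u) fun w hw => by
      obtain ⟨D, e1, e2⟩ := hD' w hw
      have := dv_dot D (hess m.f q u) u
      rw [e, map_zero, dv_hess e1, e2, hess_symm] at this
      linear_combination (-1 / 2 : Ω) * this
    obtain ⟨D, e1, e2⟩ := hD' a p1
    have := congrArg (dv D) hc
    rw [dv_hess e1, e2, dv_smul, dv_grad e1, smul_zero, add_zero] at this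
    exact p3 (by rw [this, smul_dotProduct, p2, smul_zero])
  have h6 : N ⬝ᵥ v ∈ cl C (range (edge q u (N ⬝ᵥ v))) := mem_cl_of_pts (m := m) (mem_pts.2
    ⟨fun e => h5 (by simpa [e] using (eval_derivative_two m.f (edge q u (N ⬝ᵥ v)) (N ⬝ᵥ v)).symm),
      by simpa using h0⟩)
  have h7 : ∀ i, q i ∈ cl C (range (edge q u (N ⬝ᵥ v))) := fun i => by
    simpa using pt_mem_cl (fun i => subset_cl _ (mem_range_self i)) h6 i
  have h8 : ∀ i, N i ∈ cl C (range (edge q u (N ⬝ᵥ v))) := fun i => aeval_mem_cl h7 _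
  refine ⟨cur_iff_rk.2 (le_antisymm ?_ (hr.trans (add_le_add_left (H88.rk_le ?_) 1))),
    by simpa using h1, by simpa using h4⟩
  · have := rk_tan (F := m.f) (l := edge q u (N ⬝ᵥ v)) (t := N ⬝ᵥ v) (by simpa using h1.grad_ne)
      (by simpa using h4)
    rw [pt_edge] at this
    refine (add_le_add_left this 1).trans ?_
    rw [add_right_comm, h1.rk, Fintype.card_sum, Nat.cast_add]
  · refine union_subset (range_subset_iff.2 h7) (range_subset_iff.2 fun i => ?_)
    rw [show v i = u i + N ⬝ᵥ v / (N ⬝ᵥ N) * N i from (sub_add_cancel _ _).symm]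
    exact add_mem (subset_cl _ ⟨.inr i, rfl⟩)
      (mul_mem (div_mem h6 (dot_mem_cl h8 h8)) (h8 i))

theorem tl_ex [IsAlgClosed C] [IsAlgClosed Ω] (hl : Gen C l) (m : Mir k C ι) :
    ∃ l' : ι ⊕ ι → Ω, Tl m l' := by
  obtain ⟨t, ht⟩ := Finset.card_pos.1
    (lt_of_lt_of_le two_pos (m.deg.trans (card_pts m hl).ge))
  exact ⟨_, tl_iff.2 ⟨_, tg_of_gen hl (mem_pts.1 ht).2⟩⟩

omit [CharZero Ω] in
theorem tl_tid [IsAlgClosed Ω] (h : Tl m l) (h' : Tl m l') (F : MvPolynomial (ι ⊕ ι) C)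
    (h0 : ev l F = 0) : ev l' F = 0 := by
  obtain ⟨t, h⟩ := tl_iff.1 h
  obtain ⟨t', h'⟩ := tl_iff.1 h'
  obtain ⟨σ, rfl, -⟩ := h.conj h'
  rw [ev_mp, h0, map_zero]

end Pool.Agent.MP_249f74_an.H27
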