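import Pool.Agent.MP_249f74_an.H32.Mod
import Pool.Agent.MP_249f74_an.H96A.Lift

/-!
Simple points of sections lift along places.
-/

open Matrix

namespace Pool.Agent.MP_249f74_an.H27

open H17.Cm (grad rf line)
open H42 (ev Gen FL mp Sp)
open H96A (Pl)
open H96A.Lift (SP sp_C sp_X)
open H32

variable {k C Ω ι : Type} [Field k] [Algebra k ℝ] [Field C] [Algebra k C] [Field Ω] [Algebra C Ω]
  {P : Pl C Ω}

/-- Specialization of vectors. -/
def SV (P : Pl C Ω) (a b : ι → Ω) : Prop := ∀ i, P.sp (a i) (b i)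

namespace SV

variable {a b a' b' : ι → Ω} {s t : Ω}

lemma aeval (h : SV P a b) (F : MvPolynomial ι C) :
    P.sp (MvPolynomial.aeval a F) (MvPolynomial.aeval b F) := by
  induction F using MvPolynomial.induction_on with
  | C c => simpa using P.cst c
  | add p q hp hq => rw [map_add, map_add]; exact P.add hp hq
  | mul_X p i hp =>
    rw [map_mul, map_mul, MvPolynomial.aeval_X, MvPolynomial.aeval_X]
    exact P.mul hp (h i)

lemma add (h : SV P a b) (h' : SV P a' b') : SV P (a + a') (b + b') := fun i => P.add (h i) (h' i)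

lemma sub (h : SV P a b) (h' : SV P a' b') : SV P (a - a') (b - b') := fun i =>
  H96A.Lift.sub (h i) (h' i)

lemma smul (h : SV P a b) (h' : P.sp s t) : SV P (s • a) (t • b) := fun i => P.mul h' (h i)

lemma line (h : SV P a b) (h' : SV P a' b') (F : MvPolynomial ι C) :
    SP P (line F a a') (line F b b') := by
  unfold H17.Cm.line
  induction F using MvPolynomial.induction_on with
  | C c =>
    rw [MvPolynomial.aeval_C, MvPolynomial.aeval_C, Polynomial.algebraMap_apply]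
    exact sp_C (P.cst c)
  | add p q hp hq => rw [map_add, map_add]; exact hp.add hq
  | mul_X p i hp =>
    rw [map_mul, map_mul, MvPolynomial.aeval_X, MvPolynomial.aeval_X]
    exact hp.mul ((sp_C (h i)).add ((sp_C (h' i)).mul sp_X))

lemma grad (h : SV P a b) (F : MvPolynomial ι C) : SV P (grad F a) (grad F b) := fun _ =>
  h.aeval _

variable [Fintype ι]

lemma dot (h : SV P a b) (h' : SV P a' b') : P.sp (a ⬝ᵥ a') (b ⬝ᵥ b') :=
  H96A.Lift.sum _ fun i _ => P.mul (h i) (h' i)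

lemma rf (h : SV P a b) (h' : SV P a' b') (hb : b ⬝ᵥ b ≠ 0) : SV P (rf a a') (rf b b') := by
  refine h'.sub (h.smul ?_)
  rw [div_eq_mul_inv, div_eq_mul_inv]
  exact P.mul (P.mul (by simpa [map_ofNat] using P.cst 2) (h.dot h'))
    (H96A.Lift.inv (h.dot h) hb)

end SV

variable {l l' : ι ⊕ ι → Ω} {s t : Ω}

lemma sv_pos (h : SV P l l') : SV P (pos l) (pos l') := fun _ => h _

lemma sv_dir (h : SV P l l') : SV P (dir l) (dir l') := fun _ => h _

lemma sv_pt (h : SV P l l') (h' : P.sp s t) : SV P (pt l s) (pt l' t) :=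
  (sv_pos h).add ((sv_dir h).smul h')

lemma sv_edge {q q' u u' : ι → Ω} (h : SV P q q') (h' : SV P u u') (h'' : P.sp s t) :
    SV P (edge q u s) (edge q' u' t) := by
  rintro (i | i)
  exacts [h.sub (h'.smul h'') i, h' i]

lemma mp_eq {σ : Ω ≃ₐ[C] Ω} : σ ∈ FL C l ↔ mp σ l = l :=
  ⟨fun h => funext fun i => h _ ⟨i, rfl⟩, fun h _ ⟨i, e⟩ => e ▸ congrFun h i⟩

lemma aeval_map (σ : Ω ≃ₐ[C] Ω) (q : ι → Ω) (F : MvPolynomial ι C) :
    MvPolynomial.aeval (σ ∘ q) F = σ (MvPolynomial.aeval q F) :=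
  (MvPolynomial.comp_aeval_apply (f := q) (σ : Ω →ₐ[C] Ω) F).symm

lemma grad_map (σ : Ω ≃ₐ[C] Ω) (q : ι → Ω) (F : MvPolynomial ι C) :
    grad F (σ ∘ q) = σ ∘ grad F q := funext fun _ => aeval_map σ q _

variable [Fintype ι]

lemma dot_map (σ : Ω ≃ₐ[C] Ω) (a b : ι → Ω) : (σ ∘ a) ⬝ᵥ (σ ∘ b) = σ (a ⬝ᵥ b) := by
  simp [dotProduct]

lemma rf_map (σ : Ω ≃ₐ[C] Ω) (a b : ι → Ω) : rf (σ ∘ a) (σ ∘ b) = σ ∘ rf a b := by
  ext i
  simp [rf, dot_map, map_ofNat]

lemma st_map {m : Mir k C ι} (h : St m l t l') (σ : Ω ≃ₐ[C] Ω) :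
    St m (mp σ l) (σ t) (mp σ l') := by
  refine ⟨?_, ?_, ?_, ?_, ?_⟩ <;> simp only [pt_mp, dir_mp, grad_map, dot_map, rf_map, aeval_map]
  · rw [h.zero, map_zero]
  · exact (map_ne_zero σ).2 h.nn
  · exact (map_ne_zero σ).2 h.nu
  · rw [h.pt_eq]
  · rw [h.dir_eq]

/-- A simple point of a section lifts along a place and is fixed by the inertia element. -/
lemma root_lift [IsAlgClosed Ω] (F : MvPolynomial ι C) (h : Sp P l l')
    (h0 : MvPolynomial.aeval (pt l' t) F = 0) (h1 : grad F (pt l' t) ⬝ᵥ dir l' ≠ 0) :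
    ∃ s, MvPolynomial.aeval (pt l s) F = 0 ∧ P.sp s t ∧ P.σ s = s := by
  classical
  have hsp : SP P (sec F l) (sec F l') := (sv_pos h.sp).line (sv_dir h.sp) F
  rw [← eval_derivative_sec] at h1
  have hq : sec F l' ≠ 0 := fun e => h1 (by rw [e]; simp)
  obtain ⟨s, hs, hst⟩ := H96A.Lift.root _ rfl hsp hq ((eval_sec F l' t).trans h0)
  refine ⟨s, (eval_sec F l s).symm.trans hs, hst, by_contra fun hne => ?_⟩
  have hs' : (sec F l).eval (P.σ s) = 0 := by
    rw [eval_sec] at hs ⊢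
    rw [← mp_eq.1 h.fx, pt_mp, aeval_map, hs, map_zero]
  have h4 := H96A.Lift.mult (b := t) {P.σ s, s} hsp hq fun y hy => by
    rcases Finset.mem_insert.1 hy with rfl | hy
    · exact ⟨hs', P.ine hst⟩
    · rw [Finset.mem_singleton.1 hy]
      exact ⟨hs, hst⟩
  rw [Finset.card_pair hne] at h4
  exact h1 ((Polynomial.one_lt_rootMultiplicity_iff_isRoot hq).1 h4).2

theorem lift [IsAlgClosed Ω] [DecidableEq ι] : (sys k C Ω ι).LIFT := by
  intro P m l l0 l1 u _ h (hu : St m l0 u l1)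
  obtain ⟨t, h0, ht, hσ⟩ := root_lift m.f h hu.zero hu.nu
  have hq := sv_pt h.sp ht
  have hN := hq.grad m.f
  have st := st_edge h0 (H96A.Lift.ne (hN.dot hN) hu.nn)
    (H96A.Lift.ne (hN.dot (sv_dir h.sp)) hu.nu)
  refine ⟨t, _, st, ⟨?_, mp_eq.2 ?_⟩, ht, hσ⟩
  · rw [hu.eq_edge]
    exact sv_edge hq (hN.rf (sv_dir h.sp) hu.nn) ht
  · have := st_map st P.σ
    rw [mp_eq.1 h.fx, hσ] at this
    exact this.det st

end Pool.Agent.MP_249f74_an.H27
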