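import Pool.Agent.MP_249f74_an.H18.Base
import Pool.Agent.MP_249f74_an.H17.CmBerq
import Pool.Agent.MP_249f74_an.H44.Roll

/-!
Mirrors of rank one without good directions: rolling the tangent hyperplane.
-/

open MvPolynomial Matrix

namespace Pool.Agent.MP_249f74_an.H27

open H17 (Der toDer ext_der)
open H17.Cm (grad rf dv dv_add dv_sub dv_smul dv_dot add_dv der_eval grad_dv hat vec sp hat_dot
  vec_dot der_hat tv tg)
open H32 (Mir pt dir)
open H65 (Lin)
open H18 (Iv Tn Cls TP Bad Dev Hs V3 SELF BADD)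

variable {k C κ B ι : Type} [Field k] [Algebra k ℝ] [Field C] [Algebra k C] [Field κ] [Algebra C κ]
  [Fintype ι] [DecidableEq ι]

section Ring

variable [CommRing B] [Algebra κ B] {B' : Type} [CommRing B'] [Algebra κ B']

variable (B) in
/-- Extension of scalars. -/
def al {n : Type} (W : n → κ) : n → B := fun i => algebraMap κ B (W i)

/-- Directions of the ruling. -/
def ta (V V' : Option ι → B) (e o j : ι) : ι → B := Pi.single j 1 - V' (some j) • Pi.single o 1 -
  (V (some j) - V (some o) * V' (some j)) • Pi.single e 1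

lemma ta_dot (V V' U : Option ι → B) (e o j : ι) : ta V V' e o j ⬝ᵥ sp U = U (some j) -
    V' (some j) * U (some o) - (V (some j) - V (some o) * V' (some j)) * U (some e) := by
  simp [ta, sp]

/-- The projection to the ruling. -/
def rr (W W' : Option ι → κ) (e o : ι) (x : ι → B) : ι → B :=
  x - (hat x ⬝ᵥ al B W') • Pi.single o 1 -
    (hat x ⬝ᵥ al B W - algebraMap κ B (W (some o)) * hat x ⬝ᵥ al B W') • Pi.single e 1

/-- The projection of points to the hyperplane. -/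
def px (W : Option ι → κ) (e : ι) (x : ι → B) : ι → B := x - (hat x ⬝ᵥ al B W) • Pi.single e 1

/-- The projection of vectors to the hyperplane. -/
def pu (W : Option ι → κ) (e : ι) (u : ι → B) : ι → B := u - (u ⬝ᵥ sp (al B W)) • Pi.single e 1

omit [DecidableEq ι] in
lemma map_lf (φ : B →ₐ[κ] B') (W : Option ι → κ) (x : ι → B) :
    φ (x ⬝ᵥ sp (al B W)) = (fun i => φ (x i)) ⬝ᵥ sp (al B' W) := by
  simp [dotProduct, sp, al]

lemma map_af (φ : B →ₐ[κ] B') (W : Option ι → κ) (x : ι → B) :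
    φ (hat x ⬝ᵥ al B W) = hat (fun i => φ (x i)) ⬝ᵥ al B' W := by
  rw [hat_dot, hat_dot, map_add, map_lf]; simp [al]

lemma map_rr (φ : B →ₐ[κ] B') (W W' : Option ι → κ) (e o : ι) (x : ι → B) :
    (fun i => φ (rr W W' e o x i)) = rr W W' e o fun i => φ (x i) := by
  ext i; simp [rr, map_af, Pi.single_apply, apply_ite φ]

lemma map_px (φ : B →ₐ[κ] B') (W : Option ι → κ) (e : ι) (x : ι → B) :
    (fun i => φ (px W e x i)) = px W e fun i => φ (x i) := by
  ext i; simp [px, map_af, Pi.single_apply, apply_ite φ]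

lemma map_pu (φ : B →ₐ[κ] B') (W : Option ι → κ) (e : ι) (x : ι → B) :
    (fun i => φ (pu W e x i)) = pu W e fun i => φ (x i) := by
  ext i; simp [pu, map_lf, Pi.single_apply, apply_ite φ]

omit [Algebra κ B] in
lemma af_sub (x b : ι → B) (τ : B) (V : Option ι → B) :
    hat (x - τ • b) ⬝ᵥ V = hat x ⬝ᵥ V - τ * (b ⬝ᵥ sp V) := by
  simp only [hat_dot, sub_dotProduct, smul_dotProduct, smul_eq_mul]; ring

lemma pderiv_af (W : Option ι → κ) (j : ι) :
    pderiv j (hat X ⬝ᵥ al (MvPolynomial ι κ) W) = MvPolynomial.C (W (some j)) :=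
  H17.Cm.pderiv_aff W j

lemma pderiv_rr (W W' : Option ι → κ) (e o j i : ι) :
    pderiv j (rr (B := MvPolynomial ι κ) W W' e o X i) = MvPolynomial.C (ta W W' e o j i) := by
  simp only [rr, ta, Pi.sub_apply, Pi.smul_apply, Pi.single_apply, smul_eq_mul, mul_ite, mul_one,
    mul_zero, map_sub, apply_ite (pderiv j), apply_ite MvPolynomial.C, pderiv_af, map_zero,
    algebraMap_eq, pderiv_C_mul, map_mul, map_one, pderiv_X]

end Ring

variable [Field B] [Algebra κ B] [Algebra C B] {m m' : Mir k C ι} {H P : MvPolynomial (ι ⊕ ι) C}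
  {δ : Der C κ} {W W' : Option ι → κ} {e o : ι} {x b y α γ : ι → B} {D E : Der C B} {c : B}

omit [Algebra κ B] in
lemma der_af (D : Der C B) (x : ι → B) (V : Option ι → B) :
    D (hat x ⬝ᵥ V) = dv D x ⬝ᵥ sp V + hat x ⬝ᵥ dv D V := by rw [dv_dot, der_hat, vec_dot]

omit [Algebra κ B] in
lemma der_lf (D : Der C B) (x : ι → B) (V : Option ι → B) :
    D (x ⬝ᵥ sp V) = dv D x ⬝ᵥ sp V + x ⬝ᵥ sp (dv D V) := dv_dot ..

omit [Algebra κ B] [DecidableEq ι] in
lemma hs_eq (f : MvPolynomial ι C) (q a b : ι → B) : Hs f q a b = hess f q b ⬝ᵥ a := by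
  simp only [Hs, hess, grad, dotProduct, Finset.sum_mul]
  exact Finset.sum_congr rfl fun i _ => Finset.sum_congr rfl fun j _ => by ring

omit [Algebra κ B] in
/-- Invariant polynomials do not change under rotations out of the tangent hyperplane. -/
lemma iv_nrm [CharZero B] {f : MvPolynomial ι C} (hI : Iv f H) (h0 : aeval y f = 0)
    (nn : grad f y ⬝ᵥ grad f y ≠ 0) (hb : grad f y ⬝ᵥ b = 0) :
    ∑ i, H65.ev y b (pderiv (.inr i) H) * grad f y i = 0 := by
  have h1 : ∀ (v : ι → B) (t : B), (H65.ev (fun i => Polynomial.C (y i) + Polynomial.X *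
      Polynomial.C 0) (fun i => Polynomial.C (b i) + Polynomial.X * Polynomial.C (v i)) H).eval t =
      H65.ev y (b + t • v) H := fun v t => by
    have := H65.map_ev ((Polynomial.aeval t : Polynomial B →ₐ[B] B).restrictScalars C)
      (fun i => Polynomial.C (y i) + Polynomial.X * Polynomial.C 0)
      (fun i => Polynomial.C (b i) + Polynomial.X * Polynomial.C (v i)) H
    simp only [AlgHom.restrictScalars_apply, Polynomial.coe_aeval_eq_eval] at this
    rw [this]
    exact H44.ev_congr (fun i => by simp) (fun i => by simp [mul_comm (v i)]) H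
  have h2 := H44.dev y (fun _ => 0) b (grad f y) H
  have h3 := H44.dev y (fun _ => 0) b (-grad f y) H
  rw [Polynomial.funext fun t => (h1 _ t).trans (((congrArg (H65.ev y · H) ?_).trans
    (hI B y (b + t • grad f y) h0 nn)).trans (h1 _ t).symm), h2] at h3
  · simp only [Pi.neg_apply, mul_neg, Finset.sum_neg_distrib] at h3
    linear_combination h3 / 2
  · rw [rf, dotProduct_add, hb, dotProduct_smul, zero_add, smul_eq_mul, ← mul_assoc,
      mul_div_cancel_right₀ _ nn]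
    module

variable (κ) in
/-- Derivations over the field of the hyperplane. -/
def Kd (E : Der C B) : Prop := ∀ a : κ, E (algebraMap κ B a) = 0

omit [Algebra C κ] in
lemma Kd.al (h : Kd κ E) {n : Type} (W : n → κ) : dv E (al B W) = 0 := funext fun _ => h _

omit [Algebra C κ] in
lemma Kd.af (h : Kd κ E) (W : Option ι → κ) (x : ι → B) :
    E (hat x ⬝ᵥ H27.al B W) = dv E x ⬝ᵥ sp (H27.al B W) := by simp [der_af, h.al]

omit [Algebra C κ] in
lemma Kd.lf (h : Kd κ E) (W : Option ι → κ) (x : ι → B) :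
    E (x ⬝ᵥ sp (H27.al B W)) = dv E x ⬝ᵥ sp (H27.al B W) := by
  rw [der_lf, h.al]; exact add_eq_left.2 (dotProduct_zero _)

omit [Algebra C B] in
lemma aeval_rr (h0 : hat y ⬝ᵥ al B W = 0) (h1 : hat y ⬝ᵥ al B W' = 0) (Q : MvPolynomial ι κ) :
    aeval y (aeval (rr (B := MvPolynomial ι κ) W W' e o X) Q) = aeval y Q := by
  rw [comp_aeval_apply, map_rr]
  simp [rr, h0, h1]

omit [Algebra C κ] in
/-- Identities at a point that moves freely in the ruling hold on the ruling. -/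
lemma rul [CharZero B] (we : W (some e) = 1) (we' : W' (some e) = 0) (wo : W' (some o) = 1)
    (h0 : hat y ⬝ᵥ al B W = 0) (h1 : hat y ⬝ᵥ al B W' = 0)
    (h : ∀ a, a ⬝ᵥ sp (al B W) = 0 → a ⬝ᵥ sp (al B W') = 0 → ∃ E : Der C B, Kd κ E ∧ dv E y = a)
    {Q : MvPolynomial ι κ} (hQ : aeval y Q = 0) :
    aeval (rr (B := MvPolynomial ι κ) W W' e o X) Q = 0 := by
  refine H17.Cm.eq_zero_of_stable (y := y) (fun F => ∃ Q : MvPolynomial ι κ, aeval y Q = 0 ∧
    F = aeval (rr (B := MvPolynomial ι κ) W W' e o X) Q) ?_ _ ⟨Q, hQ, rfl⟩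
  rintro _ ⟨Q, hQ, rfl⟩
  refine ⟨(aeval_rr h0 h1 Q).trans hQ, fun j =>
    ⟨∑ i, pderiv i Q * MvPolynomial.C (ta W W' e o j i), ?_, ?_⟩⟩
  · obtain ⟨E, h2, h3⟩ := h (ta (al B W) (al B W') e o j) (by simp [ta_dot, al, we, mul_comm])
      (by simp [ta_dot, al, we', wo])
    have := grad_dv (θ := toDer (E.restrictScalars ℤ) h2) hQ
    rw [show dv (toDer (E.restrictScalars ℤ) h2) y = _ from h3] at this
    rw [← this]
    simp [dotProduct, grad, ta, al, Pi.single_apply, apply_ite (algebraMap κ B),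
      Algebra.smul_def]
  · rw [H17.Cm.der_aeval, map_sum]
    simp only [pderiv_rr, map_mul, aeval_C, algebraMap_eq]

/-- The tangent hyperplanes depend on one parameter. -/
structure Dw (m : Mir k C ι) (δ : Der C κ) (W : Option ι → κ) (e o : ι) : Prop where
  we : W (some e) = 1
  wo : dv δ W (some o) = 1
  nn : sp W ⬝ᵥ sp W ≠ 0
  cst : ∀ a, δ a = 0 → ∃ c, a = algebraMap C κ c
  ne : ¬m.f ∣ pderiv e m.f
  ker : ∀ Q : MvPolynomial ι C,
    aeval (rr (B := MvPolynomial ι κ) W (dv δ W) e o X) Q = 0 ↔ m.f ∣ Q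
  nrm : ∀ i, aeval (rr (B := MvPolynomial ι κ) W (dv δ W) e o X)
    (map (algebraMap C κ) (pderiv i m.f) -
      MvPolynomial.C (W (some i)) * map (algebraMap C κ) (pderiv e m.f)) = 0

/-- A line in the tangent hyperplane that rolls. -/
structure Rl (δ : Der C κ) (W : Option ι → κ) (x b α γ : ι → B) (D : Der C B) (c : B) : Prop where
  x0 : hat x ⬝ᵥ al B W = 0
  b0 : b ⬝ᵥ sp (al B W) = 0
  d0 : ∀ a, D (algebraMap κ B a) = algebraMap κ B (δ a)
  dx : dv D x = (c * hat x ⬝ᵥ al B (dv δ W)) • sp (al B W)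
  db : dv D b = (c * b ⬝ᵥ sp (al B (dv δ W))) • sp (al B W)
  mv : ∀ a a', a ⬝ᵥ sp (al B W) = 0 → a' ⬝ᵥ sp (al B W) = 0 → α ⬝ᵥ a + γ ⬝ᵥ a' = 0 →
    ∃ E : Der C B, Kd κ E ∧ dv E x = a ∧ dv E b = a'

variable [IsScalarTower C κ B]

namespace Dw

variable (h : Dw m δ W e o)
include h

lemma we1 : dv δ W (some e) = 0 := by simp [dv, h.we]

lemma we2 : dv δ (dv δ W) (some e) = 0 := by rw [dv, h.we1, map_zero]

lemma wo2 : dv δ (dv δ W) (some o) = 0 := by rw [dv, h.wo, δ.map_one_eq_zero]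

omit [Algebra C B] [IsScalarTower C κ B] in
lemma ex_s : ∃ s, s ⬝ᵥ sp (al B W) = 0 ∧ s ⬝ᵥ sp (al B (dv δ W)) = 1 :=
  ⟨Pi.single o 1 - al B W (some o) • Pi.single e 1, by simp [sp, show al B W (some e) = 1 by
    simp [al, h.we]], by simp [sp, al, h.we1, h.wo]⟩

lemma on (h0 : hat y ⬝ᵥ al B W = 0) (h1 : hat y ⬝ᵥ al B (dv δ W) = 0) :
    aeval y m.f = 0 ∧ grad m.f y = grad m.f y e • sp (al B W) := by
  refine ⟨?_, funext fun i => ?_⟩
  · rw [← aeval_map_algebraMap κ, ← aeval_rr (e := e) (o := o) h0 h1, aeval_map_algebraMap,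
      (h.ker _).2 dvd_rfl, map_zero]
  · have := congrArg (aeval y) (h.nrm i)
    rw [aeval_rr h0 h1, map_sub, map_mul, aeval_map_algebraMap, aeval_map_algebraMap, map_zero,
      aeval_C, sub_eq_zero, mul_comm] at this
    exact this

lemma gen [CharZero B] (h0 : hat y ⬝ᵥ al B W = 0) (h1 : hat y ⬝ᵥ al B (dv δ W) = 0)
    (h2 : ∀ a, a ⬝ᵥ sp (al B W) = 0 → a ⬝ᵥ sp (al B (dv δ W)) = 0 →
      ∃ E : Der C B, Kd κ E ∧ dv E y = a) : m.On y := fun Q =>
  ⟨fun e => (h.ker Q).1 (by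
    rw [← aeval_map_algebraMap κ] at e ⊢
    exact rul h.we h.we1 h.wo h0 h1 h2 e), by
    rintro ⟨Q, rfl⟩; rw [map_mul, (h.on h0 h1).1, zero_mul]⟩

end Dw

namespace Rl

variable (r : Rl δ W x b α γ D c)
include r

omit [IsScalarTower C κ B] [DecidableEq ι] in
lemma dal {n : Type} (U : n → κ) : dv D (al B U) = al B (dv δ U) := funext fun _ => r.d0 _

omit [IsScalarTower C κ B] [DecidableEq ι] in
lemma br (hE : Kd κ E) : Kd κ ⁅E, D⁆ := fun a => by
  rw [Derivation.commutator_apply, r.d0, hE, hE, map_zero, sub_zero]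

omit [IsScalarTower C κ B] in
/-- The point of contact. -/
lemma foot (l0 : b ⬝ᵥ sp (al B (dv δ W)) ≠ 0) : ∃ (y : ι → B) (τ μ : B), x = y + τ • b ∧
    hat y ⬝ᵥ al B W = 0 ∧ hat y ⬝ᵥ al B (dv δ W) = 0 ∧ dv D y = μ • b ∧
    ∀ (E : Der C B) a s, Kd κ E → a ⬝ᵥ sp (al B (dv δ W)) = 0 → dv E x = a + τ • s →
      dv E b = s → dv E y = a := by
  obtain ⟨τ, hτ⟩ : ∃ τ, τ * b ⬝ᵥ sp (al B (dv δ W)) = hat x ⬝ᵥ al B (dv δ W) :=
    ⟨_, div_mul_cancel₀ _ l0⟩
  have h1 : hat (x - τ • b) ⬝ᵥ al B (dv δ W) = 0 := by rw [af_sub, hτ, sub_self]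
  refine ⟨x - τ • b, τ, -D τ, by simp, by simp [af_sub, r.x0, r.b0], h1, ?_,
    fun E a s h2 h3 h4 h5 => ?_⟩
  · rw [dv_sub, dv_smul, r.dx, r.db, ← hτ]; module
  · have h6 : dv E (x - τ • b) = a - E τ • b := by rw [dv_sub, dv_smul, h4, h5]; module
    have h7 := h2.af (dv δ W) (x - τ • b)
    rw [h1, map_zero, h6, sub_dotProduct, h3, smul_dotProduct, zero_sub, eq_comm, neg_eq_zero,
      smul_eq_zero, or_iff_left l0] at h7
    rw [h6, h7, zero_smul, sub_zero]

variable [CharZero B] (h : Dw m δ W e o)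
include h

/-- Invariant polynomials are constant under rolling. -/
lemma inv (hl : Lin H) (hI : Iv m.f H) (ha : α = 0) (hg : γ = 0) : D (H65.ev x b H) = 0 := by
  subst ha hg
  have : CharZero C := (algebraMap C B).charZero
  have l0 : b ⬝ᵥ sp (al B (dv δ W)) ≠ 0 := fun l0 => by
    obtain ⟨s, s0, s1⟩ := h.ex_s (B := B)
    obtain ⟨E, h1, -, h2⟩ := r.mv 0 s (by simp) s0 (by simp)
    simpa [l0, h2, s1] using h1.lf (dv δ W) b
  obtain ⟨y, τ, μ, rfl, y0, y1, dy, mv⟩ := r.foot l0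
  have h1 := h.gen y0 y1 fun a h1 h2 => by
    obtain ⟨E, h3, h4, h5⟩ := r.mv a 0 h1 (by simp) (by simp)
    exact ⟨E, h3, mv E a 0 h3 h2 (by simpa using h4) h5⟩
  have h2 := (h.on y0 y1).2
  have h3 := iv_nrm (b := b) hI h1.zero h1.nn
    (by rw [h2, smul_dotProduct, dotProduct_comm, r.b0, smul_zero])
  have h4 : grad m.f y e ≠ 0 := fun e => h.ne ((h1 _).1 e)
  rw [h2] at h3
  rw [show H65.ev (y + τ • b) b H = _ from hl.tr y b τ, H65.chain_ev]
  simp only [show ∀ i, D (y i) = _ from congrFun dy, show ∀ i, D (b i) = _ from congrFun r.db,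
    Pi.smul_apply, smul_eq_mul, mul_left_comm (H65.ev _ _ _), ← Finset.mul_sum, hl.ev] at h3 ⊢
  simp [(mul_eq_zero.1 h3).resolve_left h4]

/-- The lines of a component meet a fixed space of codimension three. -/
lemma core (hl : Lin P) (hB : Bad m P) (h0 : H65.ev x b P = 0) :
    hat x ⬝ᵥ al B (dv δ W) * b ⬝ᵥ sp (al B (dv δ (dv δ W))) =
      hat x ⬝ᵥ al B (dv δ (dv δ W)) * b ⬝ᵥ sp (al B (dv δ W)) ∧
    ∀ i j, dv δ (dv δ W) i * dv δ (dv δ (dv δ W)) j =
      dv δ (dv δ W) j * dv δ (dv δ (dv δ W)) i := by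
  have : CharZero C := (algebraMap C B).charZero
  have inj := (algebraMap κ B).injective
  have t0 : ∀ j, ta (al B W) (al B (dv δ W)) e o j ⬝ᵥ sp (al B W) = 0 := fun j => by
    simp [ta_dot, al, h.we, mul_comm]
  have t1 : ∀ j, ta (al B W) (al B (dv δ W)) e o j ⬝ᵥ sp (al B (dv δ W)) = 0 := fun j => by
    simp [ta_dot, al, h.we1, h.wo]
  have t2 : ∀ j (U : Option ι → κ), U (some e) = 0 → U (some o) = 0 →
      ta (al B W) (al B (dv δ W)) e o j ⬝ᵥ sp (al B U) = al B U (some j) := fun j U h1 h2 => by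
    simp [ta_dot, al, h1, h2]
  by_cases l0 : b ⬝ᵥ sp (al B (dv δ W)) = 0
  · have h1 := der_lf D b (al B (dv δ W))
    rw [l0, map_zero, r.db, l0, r.dal, mul_zero, zero_smul, zero_dotProduct, zero_add] at h1
    have h2 : ∀ s, s ⬝ᵥ sp (al B W) = 0 → γ ⬝ᵥ s = 0 → s ⬝ᵥ sp (al B (dv δ W)) = 0 ∧
        s ⬝ᵥ sp (al B (dv δ (dv δ W))) = 0 := fun s h2 h3 => by
      obtain ⟨E, h4, -, rfl⟩ := r.mv 0 s (by simp) h2 (by simpa using h3)
      rw [← h4.lf, ← h4.lf, l0, ← h1, map_zero]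
      exact ⟨rfl, rfl⟩
    obtain ⟨s, s0, s1⟩ := h.ex_s (B := B)
    have h3 : γ ⬝ᵥ s ≠ 0 := fun e => one_ne_zero (s1.symm.trans (h2 s s0 e).1)
    have h4 : ∀ j, dv δ (dv δ W) (some j) = 0 := fun j => inj (by
      obtain ⟨h5, h6⟩ := h2 (ta (al B W) (al B (dv δ W)) e o j -
        (γ ⬝ᵥ ta (al B W) (al B (dv δ W)) e o j / γ ⬝ᵥ s) • s) (by simp [t0, s0]) (by simp [h3])
      rw [sub_dotProduct, smul_dotProduct] at h5 h6
      rw [t1, s1, smul_eq_mul, mul_one, zero_sub, neg_eq_zero] at h5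
      rwa [h5, zero_smul, sub_zero, t2 j _ h.we2 h.wo2, ← map_zero (algebraMap κ B)] at h6)
    have h5 : ∀ j, dv δ (dv δ (dv δ W)) (some j) = 0 := fun j => by rw [dv, h4, map_zero]
    refine ⟨by rw [l0, ← h1, mul_zero, mul_zero], ?_⟩
    rintro (_ | i) (_ | j) <;> simp [h4, h5]
  obtain ⟨y, τ, μ, rfl, y0, y1, dy, mv⟩ := r.foot l0
  have m1 : ∀ a, a ⬝ᵥ sp (al B W) = 0 → a ⬝ᵥ sp (al B (dv δ W)) = 0 → α ⬝ᵥ a = 0 →
      ∃ E : Der C B, Kd κ E ∧ dv E y = a := fun a h1 h2 h3 => by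
    obtain ⟨E, h3, h4, h5⟩ := r.mv a 0 h1 (by simp) (by simpa using h3)
    exact ⟨E, h3, mv E a 0 h3 h2 (by simpa using h4) h5⟩
  obtain ⟨a, a0, a1, a2⟩ : ∃ a, a ⬝ᵥ sp (al B W) = 0 ∧ a ⬝ᵥ sp (al B (dv δ W)) = 0 ∧
      ∀ E : Der C B, Kd κ E → dv E y ≠ a := by
    by_contra hn
    push Not at hn
    have h1 := h.gen y0 y1 hn
    have h2 := (h.on y0 y1).2
    have h3 := hB B y b h1 (by rw [h2, smul_dotProduct, dotProduct_comm, r.b0, smul_zero])
      ((hl.tr y b τ).symm.trans h0)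
    have h4 := congrArg (fun v => dv D v ⬝ᵥ b) h2
    simp only [dv_grad_eq, dy, hess_smul, smul_dotProduct, ← hs_eq, h3, dv_smul, add_dotProduct,
      dotProduct_comm (sp _) b, r.b0, smul_zero, zero_add] at h4
    refine (mul_eq_zero.1 h4.symm).elim (fun e => h.ne ((h1 _).1 e)) fun e => l0 ?_
    rwa [← r.dal, dotProduct_comm]
  have a3 : α ⬝ᵥ a ≠ 0 := fun e => (m1 a a0 a1 e).elim fun E hE => a2 E hE.1 hE.2
  have m2 : ∀ a', a' ⬝ᵥ sp (al B W) = 0 → a' ⬝ᵥ sp (al B (dv δ W)) = 0 →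
      ∃ E : Der C B, Kd κ E ∧ dv E y = (α ⬝ᵥ a) • a' - (α ⬝ᵥ a') • a := fun a' h1 h2 =>
    m1 _ (by simp [h1, a0]) (by simp [h2, a1]) (by simp [mul_comm])
  have m3 : ∀ E : Der C B, Kd κ E → α ⬝ᵥ dv E y = 0 := fun E hE => by_contra fun hn => by
    obtain ⟨E', h1, h2⟩ := m2 (dv E y) (by rw [← hE.af, y0, map_zero]) (by rw [← hE.af, y1, map_zero])
    refine a2 ((α ⬝ᵥ dv E y)⁻¹ • ((α ⬝ᵥ a) • E - E')) (fun z => by simp [hE z, h1 z]) ?_
    ext i
    have := congrFun h2 i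
    simp only [dv, Pi.sub_apply, Pi.smul_apply, smul_eq_mul] at this
    rw [dv, Derivation.smul_apply, Derivation.sub_apply, this, smul_eq_mul, inv_mul_eq_iff_eq_mul₀ hn]
    simp
  obtain ⟨E, e1, e2, e3⟩ := r.mv (-((τ * α ⬝ᵥ a + γ ⬝ᵥ a) / α ⬝ᵥ a) • a + τ • a) a (by simp [a0]) a0
    (by simp [a3])
  have e4 := mv E _ a e1 (by simp [a1]) e2 e3
  have e5 := m3 E e1
  rw [e4, dotProduct_smul, smul_eq_zero, or_iff_left a3] at e5
  rw [e5, zero_smul] at e4
  have e6 : dv ⁅E, D⁆ y = E μ • b + μ • a := by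
    rw [← e3, ← dv_smul, ← dy]
    ext i
    simp [dv, Derivation.commutator_apply, show E (y i) = 0 from congrFun e4 i]
  have e7 := (r.br e1).af (dv δ W) y
  rw [y1, map_zero, e6, add_dotProduct, smul_dotProduct, smul_dotProduct, a1, smul_zero, add_zero,
    eq_comm, smul_eq_zero, or_iff_left l0] at e7
  have e8 := m3 _ (r.br e1)
  rw [e6, e7, zero_smul, zero_add, dotProduct_smul, smul_eq_zero, or_iff_left a3] at e8
  rw [e8, zero_smul] at dy
  have y2 := der_af D y (al B (dv δ W))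
  rw [y1, map_zero, dy, zero_dotProduct, zero_add, r.dal, eq_comm] at y2
  have y3 := der_af D y (al B (dv δ (dv δ W)))
  rw [y2, map_zero, dy, zero_dotProduct, zero_add, r.dal, eq_comm] at y3
  have k1 : ∀ U : Option ι → κ, U (some e) = 0 → U (some o) = 0 → hat y ⬝ᵥ al B U = 0 → ∀ i,
      α ⬝ᵥ a * al B U i = a ⬝ᵥ sp (al B U) * i.elim
        (-(y ⬝ᵥ fun j => α ⬝ᵥ ta (al B W) (al B (dv δ W)) e o j))
        fun j => α ⬝ᵥ ta (al B W) (al B (dv δ W)) e o j := fun U h1 h2 h3 => by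
    have h4 : ∀ j, α ⬝ᵥ a * al B U (some j) =
        a ⬝ᵥ sp (al B U) * α ⬝ᵥ ta (al B W) (al B (dv δ W)) e o j := fun j => by
      obtain ⟨E, h4, h5⟩ := m2 _ (t0 j) (t1 j)
      have := h4.af U y
      rw [h3, map_zero, h5, sub_dotProduct, smul_dotProduct, smul_dotProduct, t2 j U h1 h2] at this
      linear_combination (exp := 1) -this
    rintro (_ | j)
    · rw [hat_dot, add_eq_zero_iff_eq_neg] at h3
      rw [h3, Option.elim, mul_neg, mul_neg, neg_inj, ← smul_eq_mul, ← smul_eq_mul,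
        ← dotProduct_smul, ← dotProduct_smul]
      exact congrArg _ (funext h4)
    · exact h4 j
  refine ⟨?_, fun i j => inj (mul_left_cancel₀ (mul_ne_zero a3 a3) ?_)⟩
  · simp only [← sub_neg_eq_add, ← neg_smul, af_sub, y1, y2]; ring
  · have k2 := k1 _ h.we2 h.wo2 y2
    have k3 := k1 _ (by rw [dv, h.we2, map_zero]) (by rw [dv, h.wo2, map_zero]) y3
    rw [map_mul, map_mul, mul_mul_mul_comm, mul_mul_mul_comm (α ⬝ᵥ a) (α ⬝ᵥ a)]
    erw [k2, k2, k3, k3]
    ring

end Rl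

variable (W e) in
/-- The restriction to the lines of the hyperplane. -/
noncomputable def rs : MvPolynomial (ι ⊕ ι) C →ₐ[C] MvPolynomial (ι ⊕ ι) κ :=
  H65.ev (px W e fun i => X (.inl i)) (pu W e fun i => X (.inr i))

lemma aeval_rs (z : ι ⊕ ι → B) (F : MvPolynomial (ι ⊕ ι) C) : aeval z (rs W e F) =
    H65.ev (px W e fun i => z (.inl i)) (pu W e fun i => z (.inr i)) F := by
  have := H65.map_ev ((aeval z : MvPolynomial (ι ⊕ ι) κ →ₐ[κ] B).restrictScalars C)
    (px W e fun i => X (.inl i)) (pu W e fun i => X (.inr i)) F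
  simpa only [rs, AlgHom.restrictScalars_apply, map_px, map_pu, aeval_X] using this

namespace Dw

variable (h : Dw m δ W e o)
include h

/-- The rolling derivation. -/
lemma roll : ∃ R : Derivation C (MvPolynomial (ι ⊕ ι) κ) (MvPolynomial (ι ⊕ ι) κ),
    ∀ (B : Type) [Field B] [Algebra κ B] [Algebra C B] [IsScalarTower C κ B] [CharZero B]
      (z : ι ⊕ ι → B) (π : MvPolynomial (ι ⊕ ι) κ), (∀ Q, aeval z Q = 0 ↔ π ∣ Q) → π ∣ R π →
      ∃ (D : Der C B) (c : B), (∀ Q, D (aeval z Q) = aeval z (R Q)) ∧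
        Rl δ W (px W e fun i => z (.inl i)) (pu W e fun i => z (.inr i))
          (fun i => grad π z (.inl i)) (fun i => grad π z (.inr i)) D c := by
  obtain ⟨R, R1, R2⟩ := H65.exists_der (k := C) (K := κ) (ι := ι ⊕ ι)
    { toFun := fun a => MvPolynomial.C (δ a)
      map_zero' := by simp
      map_add' := fun a b => by simp }
    (fun a b => by simp) (fun c => by simp) (Sum.elim
      (fun j => MvPolynomial.C (-(sp W ⬝ᵥ sp W)⁻¹) * hat (fun i => X (Sum.inl i)) ⬝ᵥ
        al (MvPolynomial (ι ⊕ ι) κ) (dv δ W) * MvPolynomial.C (W (some j)))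
      fun j => MvPolynomial.C (-(sp W ⬝ᵥ sp W)⁻¹) * (fun i => X (Sum.inr i)) ⬝ᵥ
        sp (al (MvPolynomial (ι ⊕ ι) κ) (dv δ W)) * MvPolynomial.C (W (some j)))
  refine ⟨R, fun B _ _ _ _ _ z π hz hπ => ?_⟩
  obtain ⟨D, hD⟩ := ext_der ((aeval z : MvPolynomial (ι ⊕ ι) κ →ₐ[κ] B).restrictScalars C)
    { toFun := fun Q => aeval z (R Q)
      map_zero' := by simp
      map_add' := fun a b => by simp } (fun a b => by simp)
    (fun a ha => by
      obtain ⟨g, rfl⟩ := (hz a).1 ha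
      exact (hz _).2 (by
        rw [R.leibniz]; exact (dvd_mul_right _ _).add (hπ.mul_left _)))
    (fun c => (congrArg (aeval z) (R.map_algebraMap c)).trans (map_zero _))
  have hD : ∀ Q, D (aeval z Q) = aeval z (R Q) := hD
  obtain ⟨c, hc⟩ : ∃ c, c = algebraMap κ B (-(sp W ⬝ᵥ sp W)⁻¹) := ⟨_, rfl⟩
  have c1 : c * sp (al B W) ⬝ᵥ sp (al B W) = -1 := by
    rw [show sp (al B W) ⬝ᵥ sp (al B W) = algebraMap κ B (sp W ⬝ᵥ sp W) by
      simp [dotProduct, sp, al], hc, ← map_mul, neg_mul, inv_mul_cancel₀ h.nn, map_neg, map_one]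
  have d0 : ∀ a, D (algebraMap κ B a) = algebraMap κ B (δ a) := fun a => by
    simpa [R1] using hD (MvPolynomial.C a)
  have d1 : dv D (al B W) = al B (dv δ W) := funext fun _ => d0 _
  have dx : dv D (fun i => z (.inl i)) =
      (c * hat (fun i => z (.inl i)) ⬝ᵥ al B (dv δ W)) • sp (al B W) := funext fun i => by
    simpa [R2, map_af, hc, sp, al, dv] using hD (X (.inl i))
  have db : dv D (fun i => z (.inr i)) =
      (c * (fun i => z (.inr i)) ⬝ᵥ sp (al B (dv δ W))) • sp (al B W) := funext fun i => by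
    simpa [R2, map_lf, hc, dv, show sp (al B W) i = algebraMap κ B (W (some i)) from rfl] using
      hD (X (.inr i))
  have s0 : ∀ E : Der C B, dv E (Pi.single e (1 : B)) = 0 := fun E => funext fun i => by
    simp [dv, Pi.single_apply, apply_ite E]
  have w0 : sp (al B W) e = 1 := by simp [sp, al, h.we]
  have w1 : sp (al B (dv δ W)) e = 0 := by simp [sp, al, h.we1]
  refine ⟨D, c, hD, by simp [px, af_sub, w0], by simp [pu, w0], d0, ?_, ?_,
    fun a a' h1 h2 h3 => ?_⟩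
  · rw [px, dv_sub, dv_smul, s0, der_af, d1, af_sub, dx, smul_dotProduct, smul_eq_mul,
      mul_right_comm, c1]
    simp [w1]
  · rw [pu, dv_sub, dv_smul, s0, der_lf, d1, db, smul_dotProduct, smul_eq_mul, mul_right_comm, c1]
    simp [w1]
  · obtain ⟨E, hE⟩ := H32.ex_tan hz (v := Sum.elim a a') (by simpa [dotProduct] using h3)
    have h4 : Kd κ (E.restrictScalars C) := E.map_algebraMap
    have h5 : dv (E.restrictScalars C) (fun i => z (.inl i)) = a := funext fun i => hE (.inl i)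
    have h6 : dv (E.restrictScalars C) (fun i => z (.inr i)) = a' := funext fun i => hE (.inr i)
    exact ⟨_, h4, by simp [px, dv_sub, dv_smul, s0, h4.af, h5, h1],
      by simp [pu, dv_sub, dv_smul, s0, h4.lf, h6, h2]⟩

/-- All lines of the complex in the hyperplane meet a fixed space of codimension three. -/
lemma prim [CharZero C] (hl : Lin H) (hI : Iv m.f H) (H0 : rs W e H ≠ 0) (hd : P ∣ H) (hP : Lin P)
    (hB : Bad m P) (x0 : hat x ⬝ᵥ al B W = 0) (b0 : b ⬝ᵥ sp (al B W) = 0)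
    (h0 : H65.ev x b P = 0) :
    hat x ⬝ᵥ al B (dv δ W) * b ⬝ᵥ sp (al B (dv δ (dv δ W))) =
      hat x ⬝ᵥ al B (dv δ (dv δ W)) * b ⬝ᵥ sp (al B (dv δ W)) ∧
    ∀ i j, dv δ (dv δ W) i * dv δ (dv δ (dv δ W)) j =
      dv δ (dv δ W) j * dv δ (dv δ (dv δ W)) i := by
  have : CharZero κ := charZero_of_injective_algebraMap (algebraMap C κ).injective
  obtain ⟨R, hR⟩ := h.roll
  have h1 : R (rs W e H) = 0 := by
    let F := FractionRing (MvPolynomial (ι ⊕ ι) κ)
    have e1 : ∀ Q : MvPolynomial (ι ⊕ ι) κ,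
        aeval (algebraMap (MvPolynomial (ι ⊕ ι) κ) F ∘ X) Q = 0 ↔ 0 ∣ Q := fun Q => by
      rw [aeval_algebraMap_apply, aeval_X_left_apply, zero_dvd_iff,
        map_eq_zero_iff _ (IsFractionRing.injective _ _)]
    obtain ⟨D, c, h1, r⟩ := hR F _ 0 e1 (by simp)
    rw [← zero_dvd_iff, ← e1, ← h1, aeval_rs]
    exact r.inv h hl hI (by ext; simp [grad]) (by ext; simp [grad])
  have h2 := map_dvd (rs W e) hd
  obtain ⟨π, p1, p2, p3⟩ := H32.exists_prime (l := Sum.elim x b) (ne_zero_of_dvd_ne_zero H0 h2)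
    (by rw [H42.ev, aeval_rs]; simpa [px, pu, x0, b0] using h0)
  obtain ⟨K, _, _, z, hz⟩ := H17.Cm.exists_gen_pt p1
  let _ : Algebra C K := ((algebraMap κ K).comp (algebraMap C κ)).toAlgebra
  have : IsScalarTower C κ K := .of_algebraMap_eq' rfl
  have : CharZero K := charZero_of_injective_algebraMap (algebraMap κ K).injective
  obtain ⟨D, c, -, r⟩ := hR K z π hz (H65.prime_inv p1 H0 (p2.trans h2) (by simp [h1]))
  obtain ⟨h3, h4⟩ := r.core h hP hB (by rw [← aeval_rs]; exact (hz _).2 p2)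
  refine ⟨?_, h4⟩
  obtain ⟨g, hg⟩ := (hz (hat (px W e fun i => X (Sum.inl i)) ⬝ᵥ al _ (dv δ W) *
    (pu W e fun i => X (Sum.inr i)) ⬝ᵥ sp (al _ (dv δ (dv δ W))) -
    hat (px W e fun i => X (Sum.inl i)) ⬝ᵥ al _ (dv δ (dv δ W)) *
    (pu W e fun i => X (Sum.inr i)) ⬝ᵥ sp (al _ (dv δ W)))).1 (by
      simpa only [map_sub, map_mul, map_af, map_lf, map_px, map_pu, aeval_X, sub_eq_zero] using h3)
  have := congrArg (aeval (Sum.elim x b)) hg
  rw [map_mul, show aeval (Sum.elim x b) π = 0 from p3, zero_mul] at this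
  simp only [map_sub, map_mul, map_af, map_lf, map_px, map_pu, aeval_X, sub_eq_zero] at this
  simpa [px, pu, x0, b0] using this

end Dw

omit [Algebra κ B] [IsScalarTower C κ B] in
/-- The field of the tangent hyperplane. -/
lemma ex_dw [IsAlgClosed C] [CharZero B] (hD : Dev m.f) {q u : ι → B} (hq : m.On q)
    (hu : grad m.f q ⬝ᵥ u = 0) (h0 : hess m.f q u ⬝ᵥ u ≠ 0) :
    ∃ (L : IntermediateField C B) (δ : Der C L) (W : Option ι → L) (e o : ι), Dw m δ W e o ∧
      tv m.f q = grad m.f q e • al B W ∧ hat q ⬝ᵥ al B (dv δ W) = 0 := by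
  obtain ⟨e, he⟩ := Function.ne_iff.1 hq.grad_ne
  have he : grad m.f q e ≠ 0 := he
  obtain ⟨V, hV⟩ : ∃ V, tv m.f q = grad m.f q e • V := ⟨_, (smul_inv_smul₀ he _).symm⟩
  have hN : grad m.f q = grad m.f q e • sp V := congrArg sp hV
  have v1 : V (some e) = 1 := mul_left_cancel₀ he ((congrFun hN e).symm.trans (mul_one _).symm)
  have v0 : hat q ⬝ᵥ V = 0 := by
    simpa [hV, he] using H17.Cm.hat_tv m.f q q
  have k0 : ∀ a, grad m.f q ⬝ᵥ a = 0 ↔ a ⬝ᵥ sp V = 0 := fun a => by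
    rw [hN, smul_dotProduct, smul_eq_zero, or_iff_right he, dotProduct_comm]
  have k1 : ∀ D : Der C B, hat q ⬝ᵥ dv D V = 0 := fun D => by
    simpa [v0, (k0 _).1 (grad_dv (θ := D) hq.zero)] using (der_af D q V).symm
  have k2 : ∀ (D : Der C B) a, grad m.f q ⬝ᵥ a = 0 →
      hess m.f q (dv D q) ⬝ᵥ a = grad m.f q e * sp (dv D V) ⬝ᵥ a := fun D a ha => by
    rw [← dv_grad_eq, congrArg (dv D) hN, dv_smul, add_dotProduct, smul_dotProduct,
      dotProduct_comm, (k0 a).1 ha, smul_zero, zero_add, smul_dotProduct]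
    rfl
  obtain ⟨D0, d0⟩ := on_free hq hu
  have k3 : ∀ D : Der C B, ∃ s : B, dv D V = s • dv D0 V := fun D => by
    obtain ⟨s, hs⟩ : ∃ s, s * hess m.f q u ⬝ᵥ u = hess m.f q u ⬝ᵥ dv D q := ⟨_, div_mul_cancel₀ _ h0⟩
    have h1 := grad_dv (θ := D) hq.zero
    obtain ⟨t, ht⟩ := par hq.grad_ne (g := sp (dv D V - s • dv D0 V)) fun a ha => by
      have h2 := hD B q u a hq.zero hq.grad_ne hu ha
      have h3 := hD B q u _ hq.zero hq.grad_ne hu h1
      have h4 := hD B q u (a + dv D q) hq.zero hq.grad_ne hu (by simp [ha, h1])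
      have h5 : ∀ v w, hess m.f q (v + w) = hess m.f q v + hess m.f q w := fun v w => by
        ext; simp [hess]
      have h6 := k2 D a ha
      have h7 := k2 D0 a ha
      simp only [hs_eq, h5, add_dotProduct, dotProduct_add, hess_symm m.f q _ u,
        hess_symm m.f q a (dv D q), d0] at h2 h3 h4 h7
      refine mul_left_cancel₀ (mul_ne_zero h0 he) ?_
      change _ * (sp (dv D V) - s • sp (dv D0 V)) ⬝ᵥ a = _
      rw [sub_dotProduct, smul_dotProduct, smul_eq_mul]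
      linear_combination (h4 - h2 - h3) / 2 - hess m.f q u ⬝ᵥ u * (h6 - s * h7) -
        hess m.f q u ⬝ᵥ a * hs
    have h2 : t = 0 := by simpa [sp, dv, v1, he] using congrFun ht e
    rw [h2, zero_smul] at ht
    have h3 : hat q ⬝ᵥ (dv D V - s • dv D0 V) = 0 := by simp [k1]
    rw [hat_dot, ht, dotProduct_zero, add_zero] at h3
    refine ⟨s, sub_eq_zero.1 (funext ?_)⟩
    rintro (_ | i)
    exacts [h3, congrFun ht i]
  have k4 : sp (dv D0 V) ⬝ᵥ u ≠ 0 := fun e => h0 (by rw [← d0, k2 D0 _ (d0 ▸ hu), d0, e, mul_zero])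
  obtain ⟨o, ho⟩ := Function.ne_iff.1 (show sp (dv D0 V) ≠ 0 from fun e => k4 (by simp [e]))
  have ho : D0 (V (some o)) ≠ 0 := ho
  obtain ⟨D1, d1⟩ : ∃ D1 : Der C B, D1 = (D0 (V (some o)))⁻¹ • D0 := ⟨_, rfl⟩
  have d2 : D1 (V (some o)) = 1 := by simp [d1, ho]
  have k5 : ∀ (D : Der C B) i, D (V i) = D (V (some o)) * D1 (V i) := fun D i => by
    obtain ⟨s, hs⟩ := k3 D
    rw [show D (V i) = _ from congrFun hs i, show D (V (some o)) = _ from congrFun hs _]
    simp [d1, dv, mul_assoc, ho]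
  let L : IntermediateField C B :=
    { carrier := {a | ∀ D : Der C B, D a = D (V (some o)) * D1 a}
      mul_mem' := fun {a b} ha hb D => by
        simp only [Derivation.leibniz, smul_eq_mul]; rw [ha D, hb D]; ring
      add_mem' := fun {a b} ha hb D => by simp only [map_add]; rw [ha D, hb D]; ring
      algebraMap_mem' := fun c D => by simp
      inv_mem' := fun a ha D => by
        simp only [Derivation.leibniz_inv, smul_eq_mul]; rw [ha D]; ring }
  have hL : ∀ a : L, D1 a ∈ L := fun a D => by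
    have h1 := a.2 ⁅D, D1⁆
    rw [Derivation.commutator_apply, Derivation.commutator_apply, d2, a.2 D] at h1
    simp only [Derivation.leibniz, smul_eq_mul, Derivation.map_one_eq_zero] at h1
    linear_combination h1
  let δ : Der C L := Derivation.mk'
    { toFun := fun a => ⟨_, hL a⟩
      map_add' := fun a b => Subtype.ext (by simp)
      map_smul' := fun c a => Subtype.ext (by simp) }
    fun a b => Subtype.ext (by simp)
  let W : Option ι → L := fun i => ⟨V i, fun D => k5 D i⟩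
  have we : W (some e) = 1 := Subtype.ext v1
  have r := fun Q => rul (W := W) (W' := dv δ W) (Q := Q) we (by simp [dv, we]) (Subtype.ext d2) v0
    (k1 D1) fun a h1 h2 => by
      obtain ⟨E, hE⟩ := on_free hq ((k0 a).2 h1)
      have h3 : ∀ D : Der C B, sp (dv D V) = D (V (some o)) • sp (dv D1 V) := fun D =>
        funext fun i => k5 D _
      have h4 := k2 E u hu
      rw [hE, hess_symm, ← d0, k2 D0 a ((k0 a).2 h1), h3, smul_dotProduct, dotProduct_comm,
        show a ⬝ᵥ sp (dv D1 V) = 0 from h2, d0, h3, smul_dotProduct] at h4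
      rw [h3, smul_dotProduct] at k4
      have h5 : E (V (some o)) = 0 := by simpa [he, right_ne_zero_of_mul k4] using h4
      exact ⟨E, fun z => (z.2 E).trans (by rw [h5, zero_mul]), hE⟩
  refine ⟨L, δ, W, e, o, ⟨we, Subtype.ext d2, fun e => hq.nn ?_, fun a ha => ?_,
    fun e => he ((hq _).2 e), fun Q => ⟨fun h => (hq Q).1 ?_, fun h => ?_⟩, fun i => r _ ?_⟩,
    hV, k1 D1⟩
  · have : sp V ⬝ᵥ sp V = 0 := by simpa [dotProduct, sp, W] using congrArg (algebraMap L B) e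
    rw [hN, smul_dotProduct, dotProduct_smul, this, smul_zero, smul_zero]
  · obtain ⟨c, hc⟩ := const_of_der (a := (a : B)) fun D =>
      (a.2 D).trans (mul_eq_zero_of_right _ (congrArg Subtype.val ha))
    exact ⟨c, Subtype.ext hc⟩
  · rw [← aeval_map_algebraMap L, ← aeval_rr (W := W) (W' := dv δ W) (e := e) (o := o) v0 (k1 D1),
      aeval_map_algebraMap, h, map_zero]
  · rw [← aeval_map_algebraMap L]
    exact r _ (by rw [aeval_map_algebraMap]; exact (hq Q).2 h)
  · rw [map_sub, map_mul, aeval_map_algebraMap, aeval_map_algebraMap, aeval_C, sub_eq_zero,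
      mul_comm]
    exact congrFun hN i

omit [Algebra κ B] [IsScalarTower C κ B] in
/-- No good direction, rank one. -/
theorem badd [IsAlgClosed C] [CharZero C] (hS : SELF k C ι) : BADD k C ι := by
  intro m m' H P hm hD ne hH hP hB
  obtain ⟨B, _, _, _, -, l, -, hl⟩ := H18.exists_tl m
  have : CharZero B := charZero_of_injective_algebraMap (algebraMap C B).injective
  obtain ⟨t, ht⟩ := tl_iff.1 hl
  obtain ⟨L, δ, W, e, o, h, hV, q1⟩ := ex_dw hD ht.on ht.tan ht.hess_ne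
  obtain ⟨s, hs⟩ := IsAlgClosed.exists_root (H32.sec m'.f l) fun e => by
    have := m'.deg
    rw [← ht.deg m'.prime.ne_zero, Polynomial.natDegree_eq_zero_iff_degree_le_zero.2 e.le] at this
    omega
  replace hs := (H32.eval_sec ..).symm.trans hs
  have hp := (ht.oth (ht.ne hs (.inl ne.symm)) hs).1
  have he : grad m.f (pt l t) e ≠ 0 := fun e => h.ne ((ht.on _).1 e)
  have q0 : hat (pt l t) ⬝ᵥ al B W = 0 := by simpa [hV, he] using H17.Cm.hat_tv m.f (pt l t) (pt l t)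
  have u0 : dir l ⬝ᵥ sp (al B W) = 0 := by
    have := ht.tan
    rwa [show grad m.f (pt l t) = grad m.f (pt l t) e • sp (al B W) from congrArg sp hV,
      smul_dotProduct,
      smul_eq_zero, or_iff_right he, dotProduct_comm] at this
  have p0 : hat (pt l s) ⬝ᵥ al B W = 0 := by
    rw [show pt l s = pt l t - (t - s) • dir l by simp only [pt]; module, af_sub, q0, u0]; simp
  have H0 : rs W e H ≠ 0 := fun e0 => hm (hS m H ⟨hH.ne, hH.lin, hH.iv, .of_tl hH.lin hl (by
    have := aeval_rs (W := W) (e := e) (Sum.elim (pt l t) (dir l)) H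
    rw [H18.ev_pt hH.lin l t]
    simpa [e0, px, pu, q0, u0] using this.symm)⟩)
  generalize pt l s = p at hp p0
  have p1 : hat p ⬝ᵥ al B (dv δ W) ≠ 0 := fun e => ne (H32.Mir.ext_of_associated
    (m'.prime.associated_of_dvd m.prime ((hp _).1 (h.on p0 e).1))).symm
  have key := fun b (h1 : b ⬝ᵥ sp (al B W) = 0) h2 => h.prim hH.lin hH.iv H0
    (hP.dvd hH.lin hH.tn) hP.lin hB p0 h1 (hP.tn B p b hp.zero hp.grad_ne h2)
  obtain ⟨j, hj⟩ : ∃ j, dv δ (dv δ W) j ≠ 0 := by
    by_contra hn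
    push Not at hn
    choose K hK using fun i => h.cst (dv δ W i) (hn i)
    have := H17.Cm.aff_zero (K := K) (fun P => (ht.on P).1) m.deg (by
      rw [← q1]; congr 1; ext1 i; rw [al, hK, ← IsScalarTower.algebraMap_apply])
    simpa [h.wo, this] using hK (some o)
  choose K2 k2 using fun i => h.cst (dv δ (dv δ W) i / dv δ (dv δ W) j) (by
    rw [Derivation.leibniz_div]
    exact smul_eq_zero_of_right _ (sub_eq_zero.2 ((key 0 (by simp) (by simp)).2 j i)))
  choose K1 k1 using fun i => h.cst (dv δ W i - dv δ W j * algebraMap C L (K2 i)) (by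
    rw [map_sub, δ.leibniz, δ.map_algebraMap, ← k2, smul_zero, zero_add, sub_eq_zero]
    exact (div_mul_cancel₀ _ hj).symm)
  choose K0 k0 using fun i => h.cst (W i - W j * algebraMap C L (K2 i) -
    W (some o) * algebraMap C L (K1 i)) (by
      simp only [map_sub, δ.leibniz, δ.map_algebraMap, smul_eq_mul]
      rw [show δ (W (some o)) = 1 from h.wo, ← k1, dv, dv]
      ring)
  have inj := (algebraMap C L).injective
  have a1 : K2 (some e) = 0 := inj (by simp [← k2, h.we2])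
  have a2 : K2 (some o) = 0 := inj (by simp [← k2, h.wo2])
  have a3 : K2 j = 1 := inj (by simp [← k2, hj])
  have a4 : K1 (some e) = 0 := inj (by simp [← k1, h.we1, a1])
  have a5 : K1 (some o) = 1 := inj (by simp [← k1, h.wo, a2])
  have a6 : K0 (some e) = 1 := inj (by simp [← k0, h.we, a1, a4])
  refine ⟨![K0, K1, K2], Fintype.linearIndependent_iff.2 fun c hc => ?_, fun Y hY => ?_⟩
  · have h0 : c 0 = 0 := by simpa [Fin.sum_univ_three, a1, a4, a6] using congrFun hc (some e)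
    have h1 : c 1 = 0 := by simpa [Fin.sum_univ_three, a2, a5, h0] using congrFun hc (some o)
    have h2 : c 2 = 0 := by simpa [Fin.sum_univ_three, a3, h0, h1] using congrFun hc j
    intro i; fin_cases i <;> assumption
  have y : ∀ (U : Option ι → L) (a b c : L), (∀ i, U i = a * algebraMap C L (K0 i) +
      b * algebraMap C L (K1 i) + c * algebraMap C L (K2 i)) →
      (al B U ⬝ᵥ fun o => algebraMap C B (Y o)) = 0 := fun U a b c hU => by
    have h0 := fun a => congrArg (algebraMap C B) (hY a)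
    have h1 := h0 0
    have h2 := h0 1
    have h3 := h0 2
    simp only [dotProduct, map_sum, map_mul, map_zero, cons_val] at h1 h2 h3
    simp only [dotProduct, al, hU, map_add, map_mul, ← IsScalarTower.algebraMap_apply, add_mul,
      Finset.sum_add_distrib, mul_assoc, ← Finset.mul_sum, h1, h2, h3, mul_zero, add_zero]
  have y0 := y W 1 (W (some o)) (W j) fun i => by linear_combination k0 i
  have y1 := y (dv δ W) 0 1 (dv δ W j) fun i => by linear_combination k1 i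
  have y2 := y (dv δ (dv δ W)) 0 0 (dv δ (dv δ W) j) fun i => by simp [← k2, mul_div_cancel₀ _ hj]
  have tvY : ∀ (F : MvPolynomial ι C) (q : ι → B), aeval q (tg F ⬝ᵥ fun o => MvPolynomial.C (Y o)) =
      tv F q ⬝ᵥ fun o => algebraMap C B (Y o) := fun F q => by simp [dotProduct, tv]
  refine ⟨(ht.on _).1 (by rw [tvY, hV, smul_dotProduct, y0, smul_zero]), (hp _).1 ?_⟩
  obtain ⟨v, hv⟩ : ∃ v, v = (hat p ⬝ᵥ al B (dv δ W)) • al B (dv δ (dv δ W)) -
    (hat p ⬝ᵥ al B (dv δ (dv δ W))) • al B (dv δ W) := ⟨_, rfl⟩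
  have v1 : hat p ⬝ᵥ v = 0 := by simp [hv, mul_comm]
  have z : ∀ T : Option ι → B, hat p ⬝ᵥ T = 0 → sp T = 0 → T = 0 := fun T h1 h2 => by
    rw [hat_dot, h2, dotProduct_zero, add_zero] at h1
    ext (_ | i)
    exacts [h1, congrFun h2 i]
  have v0 : sp v ≠ 0 := fun e => by
    have h1 := z v v1 e
    have h2 : hat p ⬝ᵥ al B (dv δ (dv δ W)) = 0 := by
      simpa [hv, al, h.wo, h.wo2] using congrFun h1 (some o)
    simpa [hv, h2, p1, al, hj] using congrFun h1 j
  have v2 : ∀ b, (grad m'.f p - grad m'.f p e • sp (al B W)) ⬝ᵥ b = 0 → sp v ⬝ᵥ b = 0 :=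
    fun b hb => by
      have h1 := (key (pu W e b) (by simp [pu, sp, al, h.we])
        (by rw [← hb]; simp [pu, dotProduct_comm b, mul_comm])).1
      rw [hv, dotProduct_comm, ← vec_dot, dotProduct_sub, dotProduct_smul, dotProduct_smul,
        vec_dot, vec_dot]
      simpa [pu, sp, al, h.we1, h.we2, sub_eq_zero] using h1
  obtain ⟨c, hc⟩ := par (fun e => v0 (funext fun i => by
    simpa using v2 (Pi.single i 1) (by simp [e]))) v2
  have c0 : c ≠ 0 := fun e => v0 (by simp [hc, e])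
  have := z (v - c • (tv m'.f p - grad m'.f p e • al B W)) (by simp [v1, p0, H17.Cm.hat_tv])
    (sub_eq_zero.2 hc)
  have := congrArg (· ⬝ᵥ fun o => algebraMap C B (Y o)) this
  simpa [tvY, hv, y0, y1, y2, c0] using this

end Pool.Agent.MP_249f74_an.H27
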